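import Mathlib

namespace Pool.Agent.Results.MP_993e82_nt.All

/-- the norm form of the cubic field generated by a root of `X³ - 3X + 1` -/
def T {R : Type} [CommRing R] (x y z : R) : R :=
  x ^ 3 - 3 * x * y ^ 2 - 3 * x * z ^ 2 + 3 * x * y * z - y ^ 3 + 6 * y ^ 2 * z - 3 * y * z ^ 2 - z ^ 3

lemma key (f : ℤ → ℂ)
    (H : ∀ x y z u v w : ℤ, T x y z = T u v w → T (f x) (f y) (f z) = T (f u) (f v) (f w)) :
    (∀ n, f n = f 0) ∨ ∀ n, f n = f 1 * n := by
  have h1 : ∀ x, T (f x) (f 0) (f 0) = T (f 0) (f (-x)) (f 0) := fun x =>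
    H _ _ _ _ _ _ (by unfold T; ring)
  have h2 : ∀ x, T (f 0) (f x) (f 0) = T (f 0) (f 0) (f x) := fun x =>
    H _ _ _ _ _ _ (by unfold T; ring)
  by_cases h0 : f 0 = 0
  swap
  · left
    have a : ∀ x, f x = 0 ∨ f x = f 0 := fun x => by
      have : f 0 * (f x * (f x - f 0)) = 0 := by
        have := h2 x; unfold T at this; linear_combination this / 9
      simpa [h0, sub_eq_zero] using this
    intro n
    refine (a n).resolve_left fun hn => h0 (pow_eq_zero_iff (n := 3) (by norm_num) |>.1 ?_)
    have := h1 n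
    unfold T at this
    rcases a (-n) with h | h <;> rw [hn, h] at this
    · linear_combination this / 4
    · linear_combination this / 2
  by_cases hz : ∀ n, f n = 0
  · left; intro n; rw [hz, hz]
  right
  push Not at hz
  obtain ⟨m, hm⟩ := hz
  have g : ∀ x y z, T (f x) (f y) (f z) = T (f x) (f (-z)) (f (y - z)) := fun x y z =>
    H _ _ _ _ _ _ (by unfold T; ring)
  have gC : ∀ y z, -f y ^ 3 + 6 * f y ^ 2 * f z - 3 * f y * f z ^ 2 - f z ^ 3 =
      -f (-z) ^ 3 + 6 * f (-z) ^ 2 * f (y - z) - 3 * f (-z) * f (y - z) ^ 2 - f (y - z) ^ 3 := by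
    intro y z
    have := g 0 y z
    unfold T at this
    rw [h0] at this
    linear_combination this
  have gQ : ∀ y z, f y ^ 2 - f y * f z + f z ^ 2 = f (-z) ^ 2 - f (-z) * f (y - z) + f (y - z) ^ 2 := by
    intro y z
    refine mul_left_cancel₀ hm ?_
    have := g m y z
    unfold T at this
    linear_combination (gC y z - this) / 3
  have odd : ∀ z, f (-z) = -f z := fun z => by
    have a := gQ 0 z
    have b := h1 z
    unfold T at b
    rw [zero_sub, h0] at a
    rw [h0] at b
    have c : f (-z) ^ 2 * (f (-z) + f z) = 0 := by linear_combination b - f z * a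
    rcases mul_eq_zero.1 c with c | c
    · have c1 := pow_eq_zero_iff (n := 2) (by norm_num) |>.1 c
      have c2 : f z ^ 2 = 0 := by linear_combination a + c
      rw [c1, pow_eq_zero_iff (n := 2) (by norm_num) |>.1 c2, neg_zero]
    · linear_combination c
  have alt : ∀ y z, f (y - z) = f y - f z ∨ f (y - z) = -f y := fun y z => by
    have a := gQ y z
    rw [odd] at a
    have : (f (y - z) - (f y - f z)) * (f (y - z) + f y) = 0 := by linear_combination -a
    rcases mul_eq_zero.1 this with h | h
    · left; linear_combination h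
    · right; linear_combination h
  have add : ∀ y z, f (y + z) = f y + f z ∨ (f y = f z ∧ f (y + z) = -f y) := fun y z => by
    have a := alt y (-z)
    have b := alt z (-y)
    rw [sub_neg_eq_add, odd] at a b
    rw [add_comm] at b
    rcases a with a | a
    · left; linear_combination a
    rcases b with b | b
    · left; linear_combination b
    · exact Or.inr ⟨by linear_combination a - b, a⟩
  have two : f 2 = 2 * f 1 := by
    rcases add 1 1 with h | h
    · rw [two_mul]; exact h
    · have e := H (-1) (-1) (-1) (-2) (-2) (-1) (by unfold T; norm_num)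
      have e2 : f 2 = -f 1 := h.2
      rw [odd 1, odd 2, e2] at e
      unfold T at e
      have : f 1 ^ 3 = 0 := by linear_combination e / 18
      rw [e2, pow_eq_zero_iff (n := 3) (by norm_num) |>.1 this]
      ring
  have nat : ∀ n : ℕ, f (n + 2) = f 1 * (n + 2) := fun n => by
    induction n with
    | zero => simp [two, mul_comm]
    | succ n ih =>
      rcases add (n + 2) 1 with h | h
      · push_cast
        rw [show (n : ℤ) + 1 + 2 = n + 2 + 1 by ring, h, ih]; ring
      · have : f 1 * (n + 1) = 0 := by linear_combination h.1 - ih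
        have z : f 1 = 0 := (mul_eq_zero.1 this).resolve_right (by exact_mod_cast n.succ_ne_zero)
        push_cast
        rw [show (n : ℤ) + 1 + 2 = n + 2 + 1 by ring, h.2, h.1, z]; ring
  have nat' : ∀ n : ℕ, f n = f 1 * n := fun n => by
    rcases n with _ | _ | n
    · simp [h0]
    · simp
    · have := nat n
      push_cast
      rw [add_assoc, one_add_one_eq_two, add_assoc, one_add_one_eq_two]
      exact this
  intro n
  obtain ⟨k, rfl | rfl⟩ := n.eq_nat_or_neg
  · simpa using nat' k
  · rw [odd, nat']; simp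

theorem result (f h : ℤ → ℂ) :
    (∀ x y z : ℤ, h (T x y z) = T (f x) (f y) (f z)) ↔
      ∃ c : ℂ, ((∀ n, f n = c * n) ∧ ∀ x y z : ℤ, h (T x y z) = c ^ 3 * (T x y z : ℤ)) ∨
        ((∀ n, f n = c) ∧ ∀ x y z : ℤ, h (T x y z) = -c ^ 3) := by
  constructor
  · intro H
    rcases key f (fun x y z u v w e => by rw [← H, ← H, e]) with a | a
    · refine ⟨f 0, Or.inr ⟨a, fun x y z => ?_⟩⟩
      rw [H, a x, a y, a z]; unfold T; ring
    · refine ⟨f 1, Or.inl ⟨a, fun x y z => ?_⟩⟩
      rw [H, a x, a y, a z]; unfold T; push_cast; ring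
  · rintro ⟨c, ⟨a, b⟩ | ⟨a, b⟩⟩ x y z
    · rw [b, a x, a y, a z]; unfold T; push_cast; ring
    · rw [b, a x, a y, a z]; unfold T; ring

end Pool.Agent.Results.MP_993e82_nt.All
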